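import Mathlib
import Pool.Agent.W5h23.Four.Main

/-!
# The Mumford-Tate conjecture for an abelian variety is a statement about one Tate class on `A⁴`

Let `A` be an abelian variety over a finitely generated field of complex numbers, `W = H_1(A, ℚ)`
with the polarization form `ω₀`, `T` the tangent space at the origin and `per : W → T` the inclusion
(so that `ℝ ⊗ W = T`); `V = ℚ_ℓ ⊗ W` is the rational Tate module, with the (continuous) action `ρ` of
the Galois group `Γ` and the cyclotomic character `χ`, `ω = ℚ_ℓ ⊗ ω₀`.  Multilinear forms on `V` in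
`2 m` variables, twisted `m` times, are classes in `(H¹)^{⊗ 2 m} (m)`, a part of `H^{2m}(A^{2m})(m)`.

* `TateLie ρ χ ω` is the space `𝔤` of the endomorphisms of `V` which are in the symplectic Lie
  algebra of `ω` and kill all Tate classes in all `(H¹)^{⊗ 2 m} (m)`: it is the Lie algebra of the
  `ℓ`-adic monodromy group up to homotheties.
* The trace form is nondegenerate on `𝔤`; let `P` be the orthogonal projection of `End V` to `𝔤`.
  The class `c` of `P` is the form in four variables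
  `c(a, b, c, d) = ω (P (x ↦ ω (b, x) a) c, d)` (`pf ω P`): up to a sign the quadratic Casimir element of
  `𝔤` for the trace form.  It is a Tate class of codimension two on `A⁴`, in the part
  `Sym² (Sym² H¹) (2)`.
* `InLieMT per comp X μ`: `X` is in the Lie algebra of the Mumford-Tate group (over `ℚ_ℓ`), `μ` its
  action on the Tate twist.

Hypotheses: `hss`, `hF` (the theorems of Faltings), `hDel` (the theorem of Deligne: Hodge classes are
Tate classes).

Theorem.
1. If the one class `c` is a linear combination of Hodge classes then every element of the Lie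
   algebra of the Mumford-Tate group is the sum of a central element and of an element of `𝔤` (so
   the derived groups of the Mumford-Tate group and of the connected `ℓ`-adic monodromy group coincide).
2. By the theorem on the centres (`CentreOfLieAlgebra`: the centre of the Lie algebra of the
   Mumford-Tate group is in the Lie algebra of the monodromy group, known for all `A`) the following are
   then equivalent: the Mumford-Tate conjecture for `A`; all Tate classes in `Sym² (Sym² H¹) (2)` are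
   combinations of Hodge classes; the class `c` is a combination of Hodge classes.
3. The same holds, without the theorem on the centres, if the Rosati involution is trivial on the
   centre of `End(A) ⊗ ℚ` (the simple factors of `A` are of the types I, II and III of Albert).
-/

namespace Pool.Agent.Results.MP_33b3f9_ag.CasimirClass

open Module TensorProduct Pool.Agent.H204R3.SP Pool.Agent.H204R3.GP Pool.Agent.TH118.MT
open Pool.Agent.W5h23.Four

theorem result (ℓ : ℕ) [Fact ℓ.Prime]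
    -- the complex abelian variety `A` with a polarization
    {W T : Type} [AddCommGroup W] [Module ℚ W] [FiniteDimensional ℚ W] [AddCommGroup T] [Module ℂ T]
    (per : W →+ T) (hper : ∃ e : ℝ ⊗[ℚ] W ≃ₗ[ℝ] T, ∀ w, e ((1 : ℝ) ⊗ₜ[ℚ] w) = per w)
    (ω₀ : W →ₗ[ℚ] W →ₗ[ℚ] ℚ) (halt : ∀ v, ω₀ v v = 0)
    (hnondeg : ∀ u, (∀ v, ω₀ v u = 0) → u = 0) (hω₀ : IsHodgeBilinear per ω₀)
    -- the action of the Galois group on the Tate module
    {Γ : Type} [Group Γ] [TopologicalSpace Γ] [IsTopologicalGroup Γ] [CompactSpace Γ]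
    (ρ : Representation ℚ_[ℓ] Γ (ℚ_[ℓ] ⊗[ℚ] W)) (χ : Γ →* ℚ_[ℓ])
    (hcont : ∀ (f : Dual ℚ_[ℓ] (ℚ_[ℓ] ⊗[ℚ] W)) (x : ℚ_[ℓ] ⊗[ℚ] W), Continuous fun γ => f (ρ γ x))
    (hω : ∀ s u v, bcb ℚ_[ℓ] ω₀ (ρ s u) (ρ s v) = χ s * bcb ℚ_[ℓ] ω₀ u v)
    -- the theorems of Faltings and Deligne
    (hss : FiniteIndexSemisimple ρ) (hF : FaltingsEnd per (incl ℚ_[ℓ] W) ρ)
    (hDel : ∀ (m : ℕ), ∀ φ ∈ HodgeSpan (k := ℚ_[ℓ]) per (incl ℚ_[ℓ] W) m,
      IsTateTensor ρ χ m φ) :
    ∃ P : End ℚ_[ℓ] (ℚ_[ℓ] ⊗[ℚ] W) →ₗ[ℚ_[ℓ]] End ℚ_[ℓ] (ℚ_[ℓ] ⊗[ℚ] W),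
      -- `P` is the orthogonal projection to the Lie algebra of the Tate classes
      IsTraceProjection (TateLie ρ χ (bcb ℚ_[ℓ] ω₀)) P ∧
      (∀ P', IsTraceProjection (TateLie ρ χ (bcb ℚ_[ℓ] ω₀)) P' → P' = P) ∧
      -- its class is a Tate class in `Sym² (Sym² H¹) (2)`
      IsTateTensor ρ χ 2 (pf (bcb ℚ_[ℓ] ω₀) P) ∧ IsSymSym (pf (bcb ℚ_[ℓ] ω₀) P) ∧
      -- the derived algebras
      (pf (bcb ℚ_[ℓ] ω₀) P ∈ HodgeSpan (k := ℚ_[ℓ]) per (incl ℚ_[ℓ] W) 2 →
        ∀ X μ, InLieMT per (incl ℚ_[ℓ] W) X μ → ∃ Z, InLieMT per (incl ℚ_[ℓ] W) Z μ ∧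
          (∀ X' μ', InLieMT per (incl ℚ_[ℓ] W) X' μ' → X' * Z = Z * X') ∧
          X - Z ∈ TateLie ρ χ (bcb ℚ_[ℓ] ω₀)) ∧
      -- the Mumford-Tate conjecture
      (CentreOfLieAlgebra per (incl ℚ_[ℓ] W) ρ χ ∨ RosatiTrivialOnCentre per ω₀ →
        List.TFAE [MumfordTate per (incl ℚ_[ℓ] W) ρ χ, SymSymClasses per (incl ℚ_[ℓ] W) ρ χ,
          pf (bcb ℚ_[ℓ] ω₀) P ∈ HodgeSpan (k := ℚ_[ℓ]) per (incl ℚ_[ℓ] W) 2]) := by
  obtain ⟨e, he⟩ := hper
  have hl : ∀ u, (∀ v, bcb ℚ_[ℓ] ω₀ u v = 0) → u = 0 := fun u hu =>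
    Pool.Agent.W522.U.bcb_nondeg_left ω₀ hnondeg
      (Pool.Agent.W522.U.left_nondeg ω₀ halt hnondeg) u hu
  obtain ⟨-, hnd, -, -⟩ := tateLie_props (bcb ℚ_[ℓ] ω₀) hl hω hss
  have hP := isTraceProjection_oproj hnd
  refine ⟨Pool.Agent.H50.FT.oproj _ hnd, hP, fun P' hP' => eq_oproj hnd hP',
    (class_tate halt hnondeg hω hss hP).1, (class_tate halt hnondeg hω hss hP).2, ?_, ?_⟩
  · intro hH X μ hX
    obtain ⟨Z, h1, -, h2, h3⟩ := central_part halt hnondeg hω₀ hcont hω hss hF hDel hP hH hX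
    exact ⟨Z, h1, h2, h3⟩
  · intro h
    exact tfae halt hnondeg hω₀ hcont hω hss hF hDel he hP h

end Pool.Agent.Results.MP_33b3f9_ag.CasimirClass
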