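import Mathlib
import Pool.Agent.W5h27.UN.Three
import Pool.Agent.W5h27.UN.NonScalar
import Pool.Agent.W5h27.UN.Comm
import Pool.Agent.W5h27.UN.Parity

/-!
# The Mumford-Tate conjecture for abelian varieties of all types except type III, from one group
# element for each strongly irreducible part

Let `A` be an abelian variety over a finitely generated field of complex numbers, `W = H_1(A, ℚ)`
with the polarization form `ω₀`, `T` the tangent space at the origin and `per : W → T` the inclusion
(its image spans the real vector space `T`, hypothesis `hspan`);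
`V = ℚ_ℓ ⊗ W` is the rational Tate module, with the continuous action `ρ` of the Galois group `Γ`
(of the field, or of a finite extension) and the cyclotomic character `χ`.  Let `K` be the algebraic
closure of `ℚ_ℓ` and `X = K ⊗ V`.  A subspace of `X` is *strongly irreducible* if it is a minimal
nonzero subspace stable under a subgroup of finite index.

Hypotheses.

* `hss`, `hF`: the theorems of Faltings (semisimplicity; the endomorphisms of `V` which commute with
  an open subgroup of the Galois group are combinations of endomorphisms of `A`).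
* `hE`, `hsum`: `X` is the sum of strongly irreducible subspaces `E i`.  If `A` is simple and its
  endomorphism algebra (over the algebraic closure) is a field `F` then they correspond to the
  embeddings of `F` in `K`, and their dimension is `2 dim A / [F : ℚ]`.
* `helt`: for each `i` such that the dimension of `E i` is at least four ONE element `γ` of the group
  satisfies one of the following conditions ON THE ONE SUBSPACE `E i` (`HasElement`).
  1. `γ` is diagonalizable on `E i` with an *isolated* eigenvalue `λ`: it is simple, and if `μ`, `ν`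
     are eigenvalues on `E i` different from `λ` then `μ ν / λ` is not an eigenvalue on `E i`; if the
     polarization form is not zero on `E i` then the unavoidable case `μ ν = χ γ` is allowed.
  2. `γ` acts on `E i` as a scalar times a transvection or a pseudo-reflection of any finite or
     infinite order: a transformation `t` with `t - 1` of rank one.  The order two is allowed if `E i` is
     not self-dual.
  3. `E i` is symplectic for the polarization form and `γ` acts on it as a scalar times a symplectic
     transformation `t` with `t - 1` of rank at most two that is not an involution (and the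
     dimension of `E i` is at least five if `t` has order three).

There is no condition if the dimension of `E i` is one, two or three, and no hypothesis on Frobenius
elements or inertia groups: `γ` is any element of the group.

Theorem.  (a) Suppose moreover that each non-self-dual `E i` of dimension at least two is not a proper
twist of another `E j` (it is enough that some `γ` stabilizes both and that its restrictions are not
conjugate up to scalars).  Then
commutators of elements of the Mumford-Tate group over `K` fix all Tate classes over `K` in all the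
tensor powers `(H^1)^{⊗ 2 m}(m)`, so the derived group of the Mumford-Tate group is contained in the
`ℓ`-adic monodromy group.  With the theorem that the Mumford-Tate conjecture holds for the centres of
the groups (`CentreTheorem`; Vasiu, Ullmo-Yafaev) the Mumford-Tate conjecture holds for `A`: all Tate
classes are linear combinations of Hodge classes.  (b) If all `E i` are symplectic (types I
and II of Albert) then it holds, without this hypothesis and without the centre theorem, in the strong
form: all Tate classes are combinations of products of Hodge classes of degree two, and the Hodge and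
the Tate conjecture hold for all powers of `A`.

Example 1.  `End (A) = ℤ` over the algebraic closure, of any dimension, and ONE Frobenius element at a
place of good reduction, with any Newton polygon, which has a simple eigenvalue `λ` such that for all
eigenvalues `μ, ν, κ` with `μ ν = λ κ` and `μ, ν ≠ λ` one has `μ ν = q`.  Nothing is
assumed on the relations between the other eigenvalues.  Similarly for a totally real or CM field `F`
and the `E i` (if `E i` is not self-dual then there is no exception `μ ν = q`).

Example 2.  `A` is of type IV: its endomorphism algebra (over the algebraic closure) is a CM field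
`F`, with `2 dim A = d [F : ℚ]`, and the `E i` are not self-dual, of dimension `d`.  Let `v` be a place
with residue characteristic different from `ℓ` such that the inertia group does not act trivially on
`V` and the codimension of its fixed space has the smallest possible value `[F : ℚ]` (either the
toric rank is `[F : ℚ] / 2`, and `γ` is a transvection on all `E i`, or the unipotent rank is
`[F : ℚ] / 2`, and `γ` is a pseudo-reflection of finite order on all `E i`; the order is two if `F`
contains no roots of unity except `1` and `-1`).  Then condition 2 holds for all `i`.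

Example 3.  `A` is the Jacobian of the curve `y ^ m = f (x)`, `m ≥ 3`, where `f` has at a place `v` one
double root modulo `v` and otherwise simple roots.  The inertia group acts on the part of `X` of
the character `j` of the group `μ_m` through a pseudo-reflection with eigenvalue
`- exp (2 π i j / m)`, which is a transvection if `m` is even and `j = m / 2` (this part is
symplectic, the other ones are not self-dual if they are strongly irreducible).  So condition 2 holds
for all parts at once, for all `m`, and parts of the same dimension at least three with different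
eigenvalues are not twists of each other.

The starting file `CuspMumfordTate` treats elements `γ` of finite order on the whole space,
acting on all `E j` simultaneously by symplectic transformations with `t - 1` of rank two;
`AnyToricRank` and `MixedPlaces` use operators `γ - 1` of square zero on the whole space and several
places; `FrobeniusPairsOrRatios` two ordinary Frobenius elements in general position, or one Frobenius
element with few coincidences of ratios of eigenvalues on symplectic parts (with bounds for all
ratios, parity conditions, and a condition on weak Hodge elements).  New are the isolated eigenvalues,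
the non-self-dual parts (with one Frobenius element, or pseudo-reflections of any order, also of
order two), that each condition concerns only one `E i` (nothing is assumed on the action of `γ` on
the other parts, and different parts may use different conditions), and that parts of dimension two
and three need no condition.

Idea of the proof.  Let `L` be the Lie algebra of the operators that kill all Tate classes and `𝔥` its
restriction to `E i`.  It is not scalar if the dimension is at least two: otherwise a subgroup of finite
index of `Γ` would commute with the centralizer of `L` (this uses compactness, as in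
`Pool.Agent.W5h23.Four`).  A self-dual part has even dimension: its form is a combination of Hodge
forms, and after an embedding of `K` in `ℂ` multiplication by `i` on `T` gives an operator of square
`-1` which is skew for the form.  If the dimension is two then `𝔥` contains an operator of rank one and
square zero.  If it is three and `𝔥` contains no such operator then every nilpotent operator `e` of the
trace-zero part `𝔰` of `𝔥` is regular with centralizer `K e` in `𝔰`, and `𝔰` is spanned by a principal
triple; it preserves a symmetric form (see the case of order two below).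
In case 1 the eigencomponents of the elements of `𝔥` for the eigenvalues
`μ / λ` of `γ` on `End (E i)` are in `𝔥`; they have rank one and square zero, or they are symplectic
of rank at most two and square zero.  This includes the semisimple pseudo-reflections of order
different from two.  If `t` is unipotent then `t - 1` normalizes `𝔥`.  If `t` has order two then `𝔥` is
irreducible, and if it contains no operator of rank one and square zero then there is a symmetric
form that is preserved up to scalars by the stabilizer of `E i`, so that `E i` is a twist of its dual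
space, in contradiction to the hypothesis on twists.  So `𝔥` contains an operator of rank one and
square zero; therefore it contains a Lie algebra `𝔰` which is either the special linear Lie algebra
or the symplectic one of a form, and commutators of elements of `𝔥` are in `𝔰`.  By a lemma of
Goursat and Ribet a minimal ideal of `L` in the commutator that is nonzero on `E i` acts on each
`E j` as zero or as the full Lie algebra `𝔰` of `E j`, faithfully.  The extremal elements of these Lie
algebras have square zero.  So there is an element of `L` of square zero on `X` which has rank one on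
`E i`.
-/

namespace Pool.Agent.Results.MP_33b3f9_ag.OneElementPerPart

open Module TensorProduct Pool.Agent.Y126.Notions
open Pool.Agent.H204R3.SP Pool.Agent.H204R3.GP Pool.Agent.W522.U
open Pool.Agent.TH118.MT

/-- One of the following three conditions holds.

(1) Some element `γ` of the group is diagonalizable on `U`, with a simple eigenvalue `λ`, and products
of two eigenvalues `μ`, `ν` different from `λ` are equal to products of `λ` and an eigenvalue only if
the form is not zero on `U` and `μ ν = χ γ`.

(2) Some element of the group acts on `U` as a scalar times a transformation `t` with `t - 1` of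
rank one, where `t ^ 2` is not the identity or `U` is not self-dual.

(3) The form is not zero on `U` and some element of the group acts on `U` as a scalar `c` times a
transformation `t`, `c ^ 2 = χ γ`, with `t - 1` of rank at most two, `t ^ 2` is not the
identity, and if `t ^ 3` is the identity then the dimension of `U` is at least five. -/
def HasElement {K : Type} [Field K] {X : Type} [AddCommGroup X] [Module K X]
    {Γ : Type} [Group Γ] (R : Representation K Γ X) (χ : Γ →* K) (ω : X →ₗ[K] X →ₗ[K] K)
    (U : Submodule K X) : Prop :=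
  (∃ (γ : Γ) (n : ℕ) (b : Basis (Fin n) K U) (a : Fin n → K) (k₀ : Fin n),
    (∀ k, R γ (b k : X) = a k • (b k : X)) ∧ (∀ k, a k = a k₀ → k = k₀) ∧
    ∀ i j k, a i ≠ a k₀ → a j ≠ a k₀ → a i * a j = a k₀ * a k →
      (∃ u ∈ U, ∃ v ∈ U, ω u v ≠ 0) ∧ a i * a j = χ γ) ∨
  (∃ (γ : Γ) (c : K) (t : Module.End K X), (∀ u ∈ U, t u ∈ U ∧ R γ u = c • t u) ∧
    finrank K (U.map (t - 1)) = 1 ∧ ((∃ u ∈ U, t (t u) ≠ u) ∨ ¬AreDual R χ U U)) ∨
  ((∃ u ∈ U, ∃ v ∈ U, ω u v ≠ 0) ∧
    ∃ (γ : Γ) (c : K) (t : Module.End K X), (∀ u ∈ U, t u ∈ U ∧ R γ u = c • t u) ∧ c ^ 2 = χ γ ∧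
      finrank K (U.map (t - 1)) ≤ 2 ∧ (∃ u ∈ U, t (t u) ≠ u) ∧
      ((∀ u ∈ U, t (t (t u)) = u) → 5 ≤ finrank K U))

/-- The element `γ` of the group maps `U` to `U` and `U'` to `U'`, and its restriction to `U` is not
conjugate to a scalar multiple of its restriction to `U'`. -/
def Distinguishes {K : Type} [Field K] {X : Type} [AddCommGroup X] [Module K X]
    {Γ : Type} [Group Γ] (R : Representation K Γ X) (γ : Γ) (U U' : Submodule K X) : Prop :=
  (∀ u ∈ U, R γ u ∈ U) ∧ (∀ u ∈ U', R γ u ∈ U') ∧
    ¬∃ (T : X →ₗ[K] X) (a : K), U.map T = U' ∧ (∀ u ∈ U, T u = 0 → u = 0) ∧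
      ∀ u ∈ U, T (R γ u) = a • R γ (T u)

/-- If `E i` is not self-dual, of dimension at least two, then each `E j` is isomorphic to `E i` (over
a subgroup of finite index), or not a twist of `E i`, or some element of the group distinguishes
`E i` and `E j`. -/
def TwistsAreIsomorphic {K : Type} [Field K] {X : Type} [AddCommGroup X] [Module K X]
    {Γ : Type} [Group Γ] (R : Representation K Γ X) (χ : Γ →* K) {I : Type}
    (E : I → Submodule K X) : Prop :=
  ∀ i j, 2 ≤ finrank K (E i) → ¬AreDual R χ (E i) (E i) →
    HasTwistedMap R (fun _ => 1) (E i) (E j) ∨ (∀ ψ : Γ → K, ¬HasTwistedMap R ψ (E i) (E j)) ∨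
      ∃ γ, Distinguishes R γ (E i) (E j)

/-- Commutators of elements of the Mumford-Tate group (over `k`) fix all Tate classes (over `k`). -/
def CommutatorsFixTateClasses {k : Type} [Field k] {V : Type} [AddCommGroup V] [Module k V]
    {Γ : Type} [Group Γ] {W T : Type} [AddCommGroup W] [Module ℚ W] [AddCommGroup T] [Module ℂ T]
    (per : W →+ T) (comp : W →+ V) (ρ : Representation k Γ V) (χ : Γ →* k) : Prop :=
  ∀ (m : ℕ) (φ : MultilinearMap k (fun _ : Fin m × Fin 2 => V) k), IsTateTensor ρ χ m φ →
    ∀ (h₁ h₂ : V ≃ₗ[k] V) (c₁ c₂ : k), InMumfordTate per comp h₁ c₁ →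
      InMumfordTate per comp h₂ c₂ → ∀ v : Fin m × Fin 2 → V,
        φ (fun l => h₁ (h₂ (v l))) = φ (fun l => h₂ (h₁ (v l)))

theorem result (ℓ : ℕ) [Fact ℓ.Prime]
    -- the complex abelian variety `A` with a polarization
    {W T : Type} [AddCommGroup W] [Module ℚ W] [FiniteDimensional ℚ W] [AddCommGroup T] [Module ℂ T]
    (per : W →+ T) (ω₀ : W →ₗ[ℚ] W →ₗ[ℚ] ℚ) (halt : ∀ v, ω₀ v v = 0)
    (hnondeg : ∀ u, (∀ v, ω₀ v u = 0) → u = 0) (hω₀ : IsHodgeBilinear per ω₀)
    (hspan : Submodule.span ℝ (Set.range per) = ⊤)
    -- the action of the Galois group on the Tate module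
    {Γ : Type} [Group Γ] [TopologicalSpace Γ] [IsTopologicalGroup Γ] [CompactSpace Γ]
    (ρ : Representation ℚ_[ℓ] Γ (ℚ_[ℓ] ⊗[ℚ] W))
    (hcont : ∀ (f : Dual ℚ_[ℓ] (ℚ_[ℓ] ⊗[ℚ] W)) (x : ℚ_[ℓ] ⊗[ℚ] W), Continuous fun γ => f (ρ γ x))
    (χ : Γ →* ℚ_[ℓ]) (hω : ∀ s u v, bcb ℚ_[ℓ] ω₀ (ρ s u) (ρ s v) = χ s * bcb ℚ_[ℓ] ω₀ u v)
    -- the theorems of Faltings
    (hss : FiniteIndexSemisimple ρ) (hF : FaltingsEnd per (incl ℚ_[ℓ] W) ρ)
    -- the strongly irreducible parts
    {I : Type} (E : I → Submodule (AlgebraicClosure ℚ_[ℓ])
      (AlgebraicClosure ℚ_[ℓ] ⊗[ℚ_[ℓ]] (ℚ_[ℓ] ⊗[ℚ] W)))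
    (hE : ∀ i, StronglyIrreducible (bcr ρ (AlgebraicClosure ℚ_[ℓ])) (E i)) (hsum : ⨆ i, E i = ⊤)
    (helt : ∀ i, 4 ≤ finrank (AlgebraicClosure ℚ_[ℓ]) (E i) →
      HasElement (bcr ρ (AlgebraicClosure ℚ_[ℓ])) (bcc χ (AlgebraicClosure ℚ_[ℓ]))
        (bcb (AlgebraicClosure ℚ_[ℓ]) (bcb ℚ_[ℓ] ω₀)) (E i)) :
    (TwistsAreIsomorphic (bcr ρ (AlgebraicClosure ℚ_[ℓ])) (bcc χ (AlgebraicClosure ℚ_[ℓ])) E →
      CommutatorsFixTateClasses per (Pool.Agent.TH118.MT.extend (k := ℚ_[ℓ])
        (AlgebraicClosure ℚ_[ℓ]) (incl ℚ_[ℓ] W)) (bcr ρ (AlgebraicClosure ℚ_[ℓ]))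
        (bcc χ (AlgebraicClosure ℚ_[ℓ])) ∧
      (CentreTheorem per (Pool.Agent.TH118.MT.extend (k := ℚ_[ℓ]) (AlgebraicClosure ℚ_[ℓ])
        (incl ℚ_[ℓ] W)) (bcr ρ (AlgebraicClosure ℚ_[ℓ])) (bcc χ (AlgebraicClosure ℚ_[ℓ])) →
      MumfordTate per (incl ℚ_[ℓ] W) ρ χ)) ∧
    ((∀ i, IsSymplectic (bcr ρ (AlgebraicClosure ℚ_[ℓ])) (bcc χ (AlgebraicClosure ℚ_[ℓ])) (E i)) →
      MumfordTateStrong per (incl ℚ_[ℓ] W) ρ χ) := by
  have hl1 : ∀ u, (∀ v, bcb ℚ_[ℓ] ω₀ u v = 0) → u = 0 :=
    fun u hu => bcb_nondeg_left ω₀ hnondeg (left_nondeg ω₀ halt hnondeg) u hu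
  have hr1 : ∀ u, (∀ v, bcb ℚ_[ℓ] ω₀ v u = 0) → u = 0 :=
    fun u hu => bcb_nondeg_right ω₀ hnondeg (left_nondeg ω₀ halt hnondeg) u hu
  have hl2 : ∀ u, (∀ v, bcb (AlgebraicClosure ℚ_[ℓ]) (bcb ℚ_[ℓ] ω₀) u v = 0) → u = 0 :=
    fun u hu => bcb_nondeg_left (bcb ℚ_[ℓ] ω₀) hr1 hl1 u hu
  have halt2 := Pool.Agent.TH118.CU.bcb_alt (Ω := AlgebraicClosure ℚ_[ℓ]) (bcb ℚ_[ℓ] ω₀)
    (Pool.Agent.TH118.CU.bcb_alt (Ω := ℚ_[ℓ]) ω₀ halt)
  have hinv2 := bcb_inv (Ω := AlgebraicClosure ℚ_[ℓ]) ρ χ (bcb ℚ_[ℓ] ω₀) hω
  have hpr : HasProj (bcr ρ (AlgebraicClosure ℚ_[ℓ])) := hasProj_bcr ρ _ hss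
  have hns : ∀ i, 2 ≤ finrank (AlgebraicClosure ℚ_[ℓ]) (E i) →
      ∃ Y ∈ lieT (bcr ρ (AlgebraicClosure ℚ_[ℓ])) (bcc χ (AlgebraicClosure ℚ_[ℓ])),
        ¬∃ a : AlgebraicClosure ℚ_[ℓ], ∀ u ∈ E i, Y u = a • u := fun i hi =>
    Pool.Agent.W5h27.UN.nonscalar ℓ ρ hcont χ (bcb ℚ_[ℓ] ω₀) hl1 hr1 hω hss (hE i) hi
  have hev : ∀ i, AreDual (bcr ρ (AlgebraicClosure ℚ_[ℓ])) (bcc χ (AlgebraicClosure ℚ_[ℓ]))
      (E i) (E i) → Even (finrank (AlgebraicClosure ℚ_[ℓ]) (E i)) := fun i hdu =>
    Pool.Agent.W5h27.UN.even_of_du ℓ ω₀ halt hnondeg hω₀ hspan ρ χ hω hss hF (hE i) hdu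
  have hlines : ∀ i, finrank (AlgebraicClosure ℚ_[ℓ]) (E i) = 1 →
      ¬AreDual (bcr ρ (AlgebraicClosure ℚ_[ℓ])) (bcc χ (AlgebraicClosure ℚ_[ℓ])) (E i) (E i) := by
    intro i h1 hdu
    have h3 := hev i hdu
    rw [h1] at h3
    exact absurd h3 (by decide)
  have helt' : ∀ i, 2 ≤ finrank (AlgebraicClosure ℚ_[ℓ]) (E i) →
      (finrank (AlgebraicClosure ℚ_[ℓ]) (E i) = 3 ∧ ¬AreDual (bcr ρ (AlgebraicClosure ℚ_[ℓ]))
        (bcc χ (AlgebraicClosure ℚ_[ℓ])) (E i) (E i)) ∨
      Pool.Agent.W5h27.UN.HasElt (bcr ρ (AlgebraicClosure ℚ_[ℓ])) (bcc χ (AlgebraicClosure ℚ_[ℓ]))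
        (bcb (AlgebraicClosure ℚ_[ℓ]) (bcb ℚ_[ℓ] ω₀)) (E i) := by
    intro i h2
    by_cases h4 : 4 ≤ finrank (AlgebraicClosure ℚ_[ℓ]) (E i)
    · exact Or.inr (Or.inr (helt i h4))
    · by_cases h3 : finrank (AlgebraicClosure ℚ_[ℓ]) (E i) = 3
      · refine Or.inl ⟨h3, fun hdu => ?_⟩
        have h5 := hev i hdu
        rw [h3] at h5
        exact absurd h5 (by decide)
      · exact Or.inr (Or.inl (by omega))
  refine ⟨fun htwists => ?_, fun hsym => ?_⟩
  · have htw := Pool.Agent.W5h27.UN.noTwists hpr hE hsum htwists
    have hnl := Pool.Agent.W5h27.UN.noLines hpr hE hsum hlines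
    refine ⟨fun m φ hφ h₁ h₂ c₁ c₂ hh₁ hh₂ v => ?_, fun hcen => ?_⟩
    · exact Pool.Agent.W5h27.UN.comm_of_one ℓ per ω₀ halt hnondeg hω₀ ρ χ hω hss hF
        (fun U hU h2 => Pool.Agent.W5h27.UN.one_pt3 _ halt2 hl2 hinv2 hpr htw hE hsum hns helt' hU h2)
        hnl htw hφ hh₁ hh₂ v
    · refine Pool.Agent.Y144.MT.mt_of_one ℓ per ω₀ halt hnondeg hω₀ ρ χ hω hss hF hcen ?_ hnl htw
      intro ω _ _ _ U hU h2
      exact Pool.Agent.W5h27.UN.one_pt3 _ halt2 hl2 hinv2 hpr htw hE hsum hns helt' hU h2
  · have hsy := Pool.Agent.W5h27.UN.sympl_all hpr hE hsum hsym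
    refine Pool.Agent.Y144.MT.mt_strong_of_one ℓ per ω₀ halt hnondeg hω₀ ρ χ hω hss hF hsy ?_
    intro ω _ _ _ U hU h2
    refine Pool.Agent.W5h27.UN.one_pt3 _ halt2 hl2 hinv2 hpr ?_ hE hsum hns helt' hU h2
    intro U U' hU _ _ hdu
    obtain ⟨Δ, hΔ, B, h0, -, hB⟩ := hsy U hU
    exact absurd ⟨Δ, hΔ, B, h0, hB⟩ hdu

end Pool.Agent.Results.MP_33b3f9_ag.OneElementPerPart
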