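import Pool.Agent.W5h89.MTZ.Conv

/-!
# A zero-one law for the Mumford-Tate conjecture

Let `k` be a finitely generated subfield of `ℂ`, and let `𝒱` be the class of all abelian varieties
over `k`, or the class of the powers of one of them (any class of smooth projective varieties which
is stable under products and for which Hodge classes are Tate classes is admitted).
`T` is the Hodge theory `X ↦ H(X(ℂ), ℚ)` on `𝒱` (all degrees together), `L` is `ℚ_ℓ`, and
the Galois group `Γ` of `k` acts on `L ⊗ H(X(ℂ), ℚ)`, which is the `ℓ`-adic cohomology of `X`
(`GaloisAction`; the action of `g` respects the degrees, products, pull-backs, the classes of cycles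
and the trace up to the effect `(act g).c` of `g` on the Tate twist). The Tate classes (`IsTate`) of
codimension `j` are the elements of `H^(2 j)(X)(j)` which are fixed by a subgroup of finite index.
`HodgeIsTate` is the theorem of Deligne for the varieties of the class `𝒱`: their Hodge classes are
Tate classes.

The Mumford-Tate conjecture for the abelian variety `X` says that `MT(X)` over `ℚ_ℓ` is the
identity component `G` of the `ℓ`-adic monodromy group. By Deligne `G` is contained in `MT(X)`, and both
groups are reductive (Faltings for `G`), so they are equal if and only if they have the same
invariants in the cohomology of all powers of `X`, that is, if and only if all Tate classes on all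
powers `pw X n` (the product of `n + 1` copies of `X`) are linear combinations of Hodge classes
(`TateIsHodge`).

**Theorem.** Either the Mumford-Tate conjecture holds for `X` (all Tate classes on all powers of `X`
are linear combinations of Hodge classes), or the proportion of the Hodge classes among the Tate
classes, `dim (Hodge classes on X ^ n) / dim (Tate classes on X ^ n)`, tends to zero for `n → ∞`.

So the conjecture for `X` follows as soon as, for infinitely many `n`, a proportion of at least
`ε > 0` of the Tate classes on `X ^ n` is Hodge (for instance algebraic). The semisimplicity
of the Galois action is not used.

Idea of the proof. If the proportion does not tend to zero, all Tate classes on all powers of `X` are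
obtained from the Tate classes on one power `P` by correspondences which are linear combinations of
Hodge classes (`Pool.Agent.Y121.AH.growth_or`). Let `g` be the operator `2 ^ (p - q)` on `H^(p, q)`,
transported by an embedding of `ℓ`-adic numbers into `ℂ`. It commutes with these correspondences, so
the characteristic polynomial of `g` on `H(P)` kills all Tate classes on all powers of `X`. For a Tate
class `t` this holds for all external powers of `t`, and this forces `g t = t`. So `t` is of type
`(j, j)` for all embeddings, and this means that it is a linear combination of Hodge classes.
-/

open CategoryTheory AlgebraicGeometry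

universe u v

namespace Pool.Agent.Results.MP_33b3f9_ag.ZeroOneLaw

open Pool.Agent.H914 Pool.Agent.Y121.AHS Pool.Agent.W5h89.MTZ
open Pool.Agent.Y133.Half (pw)

/-- **The zero-one law for the Mumford-Tate conjecture.** -/
theorem result {k : Type u} [Field k] {𝒱 : VarClass k} {ops : CycleOps 𝒱} (T : HodgeTheory ops)
    {L : Type} [Field L] [Algebra T.W.K L] (hL : Nonempty (L →+* ℂ))
    {Γ : Type v} [Group Γ] (A : GaloisAction T L Γ) (hD : ∀ Y j, HodgeIsTate A Y j) (X : 𝒱.Obj) :
    (∀ n j, TateIsHodge A (pw X n) j) ∨
      RatioToZero (fun n => hodgeDim T (pw X n)) fun n => tateDim A (pw X n) :=
  zero_one_tate hL A hD X

end Pool.Agent.Results.MP_33b3f9_ag.ZeroOneLaw
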